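import Pool.Agent.Lib.H38RIP.Rate

/-! # One explicit set of multiplicities with subpolynomially many partitions into parts `k ^ k` -/

set_option autoImplicit false

namespace Pool.Agent.Results.MP_e81424_nt.SubpolynomialCount

/-- The `(A,M)`-partitions of `n`: multiplicity vectors `m` with finite support contained in `A`,
nonzero multiplicities in `M`, and `∑ m x * x = n`. -/
def partitions (A M : Set ℕ) (n : ℕ) : Set (ℕ →₀ ℕ) :=
  {m | (∀ x ∈ m.support, x ∈ A ∧ m x ∈ M) ∧ (m.sum fun x c => c * x) = n}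

/-- The set of multiplicities: `2 ^ u + d` with `d ≤ j ^ 2 * 2 ^ j` and `u = 2 ^ j` or
`u = 2 ^ (j + 1) * (r + 1) + s`, `r < 9 j`, `s < 3 j`. -/
def mults : Set ℕ :=
  {m | ∃ j u d : ℕ, (u = 2 ^ j ∨ ∃ r s, r < 9 * j ∧ s < 3 * j ∧ u = 2 ^ (j + 1) * (r + 1) + s) ∧
    d ≤ j ^ 2 * 2 ^ j ∧ m = 2 ^ u + d}

/-- Every `n ≥ N` has finitely many `(A, mults)`-partitions, at least one and at most
`n ^ (160 * logloglog n / loglog n)`. -/
def Works (A : Set ℕ) (N : ℕ) : Prop :=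
  ∀ n : ℕ, N ≤ n → (partitions A mults n).Finite ∧ 1 ≤ (partitions A mults n).ncard ∧
    ((partitions A mults n).ncard : ℝ) ≤
      (n : ℝ) ^ (160 * Real.log (Real.log (Real.log n)) / Real.log (Real.log n))

theorem result :
    mults.Infinite ∧ (∀ m ∈ mults, 0 < m) ∧
    (∃ N : ℕ, Works {x | ∃ k : ℕ, 1 ≤ k ∧ x = k ^ k} N) ∧
    (∃ N : ℕ, Works {x | ∃ k : ℕ, 1 ≤ k ∧ x = k.factorial} N) ∧
    (∀ C : ℕ, ∃ N : ℕ, ∀ a : ℕ → ℕ, a 0 = 1 →
      (∀ k, 2 * a k ≤ a (k + 1) ∧ a (k + 1) ≤ C * (k + 1) * a k ∧ (k + 1) ^ k ≤ C ^ k * a k) →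
      Works (Set.range a) N) := by
  have main : ∀ C : ℕ, ∃ N : ℕ, ∀ a : ℕ → ℕ, H38RIP.Good C a → Works (Set.range a) N := by
    intro C
    obtain ⟨N1, h1⟩ := H38RIP.rate C
    obtain ⟨N2, h2⟩ := H38RIP.lower C
    exact ⟨N1 + N2, fun a ha n hn => ⟨H38RIP.vec_finite_sol ha n, h2 a ha n (by omega),
      h1 a ha n (by omega)⟩⟩
  refine ⟨H38RIP.infinite_MSet, ?_, ?_, ?_, ?_⟩
  · rintro _ ⟨j, u, d, _, _, rfl⟩
    positivity
  · obtain ⟨N, hN⟩ := main 6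
    refine ⟨N, ?_⟩
    have h := hN _ H38RIP.good_pow
    have e : Set.range (fun k : ℕ => (k + 1) ^ (k + 1)) = {x | ∃ k : ℕ, 1 ≤ k ∧ x = k ^ k} := by
      ext x
      constructor
      · rintro ⟨k, rfl⟩
        exact ⟨k + 1, by omega, rfl⟩
      · rintro ⟨k, hk, rfl⟩
        exact ⟨k - 1, by simp only; rw [show k - 1 + 1 = k by omega]⟩
    rw [e] at h
    exact h
  · obtain ⟨N, hN⟩ := main 3
    refine ⟨N, ?_⟩
    have h := hN _ H38RIP.good_factorial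
    have e : Set.range (fun k : ℕ => (k + 1).factorial)
        = {x | ∃ k : ℕ, 1 ≤ k ∧ x = k.factorial} := by
      ext x
      constructor
      · rintro ⟨k, rfl⟩
        exact ⟨k + 1, by omega, rfl⟩
      · rintro ⟨k, hk, rfl⟩
        exact ⟨k - 1, by simp only; rw [show k - 1 + 1 = k by omega]⟩
    rw [e] at h
    exact h
  · intro C
    obtain ⟨N, hN⟩ := main C
    exact ⟨N, fun a h0 ha => hN a ⟨h0, fun k => (ha k).1, fun k => (ha k).2.1, fun k => (ha k).2.2⟩⟩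

end Pool.Agent.Results.MP_e81424_nt.SubpolynomialCount
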